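import Pool.Agent.Helper37.Arb.Goals

/-!
Packet ARB-RSUM (author helper37, MP_2b0227_gt): response of a sum of antiparallel tangles.
-/

namespace Pool.Agent.Helper86.Arb

open Pool.Agent.Helper36.SC Pool.Agent.Helper37.Arb Polynomial

theorem respSum : GoalRespSum := by
  intro hM hD P Q j₁ j₂ A₁ B₁ A₂ B₂ hP0 hQ0 hP hQ
  obtain ⟨hPlr, hP⟩ := hP
  obtain ⟨hQlr, hQ⟩ := hQ
  refine ⟨fun h => Sum.inl_ne_inr h, ?_⟩
  intro x hx
  obtain ⟨hA1, hB1⟩ := hP0 x hx
  obtain ⟨hA2, hB2⟩ := hQ0 x hx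
  obtain ⟨hPd, hPs⟩ := hP x hx
  obtain ⟨hQd, hQs⟩ := hQ x hx
  have hc1 : 0 < A₁ x + x * B₁ x := by positivity
  have hc2 : 0 < A₂ x + x * B₂ x := by positivity
  have hc : 0 < (A₁ x * B₂ x + B₁ x * A₂ x) + x * (B₁ x * B₂ x) := by positivity
  have hblock := hM P Q x hPlr hQlr
  constructor
  · obtain ⟨h₁, e1, -, e1r⟩ := hPs 0 1
    obtain ⟨h₂, e2, e2l, -⟩ := hQs 1 0
    rw [mul_zero, Pi.single_zero, zero_add, mul_one] at e1
    rw [mul_zero, Pi.single_zero, add_zero, mul_one] at e2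
    have hd1 : (openMat false P.diag x).det ≠ 0 := by
      rw [hPd]; positivity
    have hd2 : (openMat false Q.diag x).det ≠ 0 := by
      rw [hQd]; positivity
    have key := hD (openMat false P.diag x) (openMat false Q.diag x) P.diag.r
      (P.diag.D.underNext P.diag.r) Q.diag.l (Q.diag.D.underNext Q.diag.l) _ _ h₁ h₂ hd1 hd2 e1 e2
    have e3 : (openMat false (Tangle.sum P Q).diag x).det = _ := (congrArg Matrix.det hblock).trans key
    rw [e3, hPd, hQd]
    have f1 : h₁ (P.diag.D.underNext P.diag.r) = A₁ x / (A₁ x + x * B₁ x) := by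
      rw [eq_div_iff hc1.ne']; linarith
    have f2 : h₂ (Q.diag.D.underNext Q.diag.l) = A₂ x / (A₂ x + x * B₂ x) := by
      rw [eq_div_iff hc2.ne']; linarith
    rw [f1, f2, zpow_add₀ hx.ne', zpow_add₀ hx.ne', zpow_one]
    field_simp
    ring
  · intro s t
    obtain ⟨g, hg⟩ : ∃ g : ℝ, ((A₁ x * B₂ x + B₁ x * A₂ x) + x * (B₁ x * B₂ x)) * g =
        A₂ x * B₁ x * s + (A₁ x + x * B₁ x) * B₂ x * t :=
      ⟨(A₂ x * B₁ x * s + (A₁ x + x * B₁ x) * B₂ x * t) /
        ((A₁ x * B₂ x + B₁ x * A₂ x) + x * (B₁ x * B₂ x)), mul_div_cancel₀ _ hc.ne'⟩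
    obtain ⟨m, hm⟩ : ∃ m : ℝ, ((A₁ x * B₂ x + B₁ x * A₂ x) + x * (B₁ x * B₂ x)) * m =
        (A₂ x + x * B₂ x) * B₁ x * s + A₁ x * B₂ x * t :=
      ⟨((A₂ x + x * B₂ x) * B₁ x * s + A₁ x * B₂ x * t) /
        ((A₁ x * B₂ x + B₁ x * A₂ x) + x * (B₁ x * B₂ x)), mul_div_cancel₀ _ hc.ne'⟩
    obtain ⟨h₁, e1, e1l, e1r⟩ := hPs s g
    obtain ⟨h₂, e2, e2l, e2r⟩ := hQs m t
    -- the values at the two glued edges
    have v1 : h₁ (P.diag.D.underNext P.diag.r) = m := by
      have : (A₁ x + x * B₁ x) * h₁ (P.diag.D.underNext P.diag.r) =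
          (A₁ x + x * B₁ x) * m := by
        rw [e1r]
        apply mul_left_cancel₀ hc.ne'
        linear_combination (A₁ x) * hg - (A₁ x + x * B₁ x) * hm
      exact mul_left_cancel₀ hc1.ne' this
    have v2 : h₂ (Q.diag.D.underNext Q.diag.l) = g := by
      have : (A₂ x + x * B₂ x) * h₂ (Q.diag.D.underNext Q.diag.l) =
          (A₂ x + x * B₂ x) * g := by
        rw [e2l]
        apply mul_left_cancel₀ hc.ne'
        linear_combination (A₂ x) * hm - (A₂ x + x * B₂ x) * hg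
      exact mul_left_cancel₀ hc2.ne' this
    have el : (Tangle.sum P Q).diag.D.underNext (Tangle.sum P Q).diag.l =
        Sum.inl (P.diag.D.underNext P.diag.l) := by
      show (Equiv.sumCongr P.diag.D.underNext Q.diag.D.underNext)
        (Equiv.swap (Sum.inl P.diag.r) (Sum.inr Q.diag.l) (Sum.inl P.diag.l)) = _
      rw [Equiv.swap_apply_of_ne_of_ne (fun h => hPlr (Sum.inl_injective h)) Sum.inl_ne_inr]
      rfl
    have er : (Tangle.sum P Q).diag.D.underNext (Tangle.sum P Q).diag.r =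
        Sum.inr (Q.diag.D.underNext Q.diag.r) := by
      show (Equiv.sumCongr P.diag.D.underNext Q.diag.D.underNext)
        (Equiv.swap (Sum.inl P.diag.r) (Sum.inr Q.diag.l) (Sum.inr Q.diag.r)) = _
      rw [Equiv.swap_apply_of_ne_of_ne Sum.inr_ne_inl (fun h => hQlr (Sum.inr_injective h).symm)]
      rfl
    refine ⟨Sum.elim h₁ h₂, ?_, ?_, ?_⟩
    · have e4 : (openMat false (Tangle.sum P Q).diag x).mulVec (Sum.elim h₁ h₂) =
          (Matrix.fromBlocks (openMat false P.diag x)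
            (-Matrix.single P.diag.r (Q.diag.D.underNext Q.diag.l) (fwd P.diag.D x P.diag.r))
            (-Matrix.single Q.diag.l (P.diag.D.underNext P.diag.r) (fwd Q.diag.D x Q.diag.l))
            (openMat false Q.diag x)).mulVec (Sum.elim h₁ h₂) :=
        congrArg (fun A : Matrix (P.diag.V ⊕ Q.diag.V) (P.diag.V ⊕ Q.diag.V) ℝ =>
          A.mulVec (Sum.elim h₁ h₂)) hblock
      refine e4.trans ?_
      rw [Matrix.fromBlocks_mulVec, Sum.elim_comp_inl, Sum.elim_comp_inr, e1, e2,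
        Matrix.neg_mulVec, Matrix.neg_mulVec, Matrix.single_mulVec, Matrix.single_mulVec, v1, v2]
      show _ = (Pi.single (Sum.inl P.diag.l) (fwd P.diag.D x P.diag.l * s) +
        Pi.single (Sum.inr Q.diag.r) (fwd Q.diag.D x Q.diag.r * t) : P.diag.V ⊕ Q.diag.V → ℝ)
      funext z
      rcases z with z | z
      · simp only [Sum.elim_inl, Pi.add_apply, Pi.neg_apply]
        by_cases hz : z = P.diag.l
        · subst hz
          simp [Pi.single_apply, Function.update_apply]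
        · simp [Pi.single_apply, Function.update_apply, hz]
      · simp only [Sum.elim_inr, Pi.add_apply, Pi.neg_apply]
        by_cases hz : z = Q.diag.r
        · subst hz
          simp [Pi.single_apply, Function.update_apply]
        · simp [Pi.single_apply, Function.update_apply, hz]
    · rw [el]
      show ((A₁ x * B₂ x + B₁ x * A₂ x) + x * (B₁ x * B₂ x)) *
        h₁ (P.diag.D.underNext P.diag.l) = (A₁ x * B₂ x + B₁ x * A₂ x) * s +
          x * (B₁ x * B₂ x) * t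
      apply mul_left_cancel₀ hc1.ne'
      linear_combination ((A₁ x * B₂ x + B₁ x * A₂ x) + x * (B₁ x * B₂ x)) * e1l +
        (x * B₁ x) * hg
    · rw [er]
      show ((A₁ x * B₂ x + B₁ x * A₂ x) + x * (B₁ x * B₂ x)) *
        h₂ (Q.diag.D.underNext Q.diag.r) = x * (B₁ x * B₂ x) * s +
          (A₁ x * B₂ x + B₁ x * A₂ x) * t
      apply mul_left_cancel₀ hc2.ne'
      linear_combination ((A₁ x * B₂ x + B₁ x * A₂ x) + x * (B₁ x * B₂ x)) * e2r +
        (x * B₂ x) * hm

end Pool.Agent.Helper86.Arb
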